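import Pool.Agent.ASO.Stmts3
import Pool.Agent.Helper62_AT3.LCJ
import Pool.Agent.Helper62_AT3.CO2
import Pool.Agent.Helper85_AT3.LSB
import Pool.Agent.Helper41_AT3.NIL
import Pool.Agent.Helper20_PP.Rst

/-!
# Squad ASO, row CJT: conjugation with the inertial group
-/

open scoped BigOperators

noncomputable section

namespace Pool.Agent.PP.SO.H69

open Pool.Agent.Helper51_AWC Pool.Agent.Helper79_WRA Pool.Agent.PP Pool.Agent.PP.KF
open Pool.Agent.PP.K9 Pool.Agent.PP.K9.H97 Pool.Agent.PP.H75 Pool.Agent.PP.T3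

attribute [local instance] Ideal.Quotient.field

section tools

variable {F V₀ G : Type} [Field F] [CommGroup V₀] [Group G]

omit [Field F] in
theorem map_act {i : V₀ →* G} {σ : MulAut V₀} {t : G} (h : ∀ v, t * i v * t⁻¹ = i (σ v))
    (W : Subgroup V₀) : (W.map σ.toMonoidHom).map i = conjS t (W.map i) := by
  ext x
  constructor
  · rintro ⟨_, ⟨w, hw, rfl⟩, rfl⟩
    exact ⟨i w, ⟨w, hw, rfl⟩, h w⟩
  · rintro ⟨_, ⟨w, hw, rfl⟩, rfl⟩
    exact ⟨σ w, ⟨w, hw, rfl⟩, (h w).symm⟩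

omit [Field F] in
theorem C_act (B : Bk F V₀ G) {σ : MulAut V₀} {t : G} (h : ∀ v, t * B.i v * t⁻¹ = B.i (σ v))
    (W : Subgroup V₀) : B.C (W.map σ.toMonoidHom) = conjS t (B.C W) := by
  unfold Bk.C
  rw [map_act h, H62.cent_conjS]

omit [Field F] in
theorem mem_C_act (B : Bk F V₀ G) {σ : MulAut V₀} {t : G}
    (h : ∀ v, t * B.i v * t⁻¹ = B.i (σ v)) (W : Subgroup V₀) (x : G) :
    x ∈ B.C (W.map σ.toMonoidHom) ↔ t⁻¹ * x * t ∈ B.C W := by
  rw [C_act B h, H62.mem_conjS]

/-- the isomorphism of the centralisers -/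
def ph (B : Bk F V₀ G) {σ : MulAut V₀} {t : G} (h : ∀ v, t * B.i v * t⁻¹ = B.i (σ v))
    (W : Subgroup V₀) : B.C W ≃* B.C (W.map σ.toMonoidHom) :=
  (conjSEquiv t (B.C W)).trans (MulEquiv.subgroupCongr (C_act B h W).symm)

omit [Field F] in
theorem ph_coe (B : Bk F V₀ G) {σ : MulAut V₀} {t : G} (h : ∀ v, t * B.i v * t⁻¹ = B.i (σ v))
    (W : Subgroup V₀) (x : B.C W) : ((ph B h W x : B.C (W.map σ.toMonoidHom)) : G) =
      t * x * t⁻¹ := rfl

omit [Field F] in
theorem ph_symm_coe (B : Bk F V₀ G) {σ : MulAut V₀} {t : G}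
    (h : ∀ v, t * B.i v * t⁻¹ = B.i (σ v)) (W : Subgroup V₀) (y : B.C (W.map σ.toMonoidHom)) :
    (((ph B h W).symm y : B.C W) : G) = t⁻¹ * y * t := by
  have h1 := ph_coe B h W ((ph B h W).symm y)
  rw [MulEquiv.apply_symm_apply] at h1
  rw [h1]
  group

theorem br_cj' [Finite G] {t : G} {V : Subgroup G} (ht : t ∈ Subgroup.normalizer (V : Set G))
    (b : G → F) : br V (cj t b) = cj t (br V b) := by
  classical
  funext x
  change _ = br V b (t⁻¹ * x * t)
  have hc : t⁻¹ * x * t ∈ Subgroup.centralizer (V : Set G) ↔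
      x ∈ Subgroup.centralizer (V : Set G) := by
    rw [← H62.mem_cent_conjS]
    have : conjS t V = V := by
      ext y
      rw [H62.mem_conjS]
      exact conj_mem_iff ht y
    rw [this]
  unfold br
  by_cases h : x ∈ Subgroup.centralizer (V : Set G)
  · rw [if_pos h, if_pos (hc.2 h)]
    rfl
  · rw [if_neg h, if_neg (fun h' => h (hc.1 h'))]

/-- the conjugate of the local block is the local block -/
theorem lb_act [Finite G] {e g : G → F} {i : V₀ →* G} {σ : MulAut V₀} {t : G}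
    (h : ∀ v, t * i v * t⁻¹ = i (σ v)) (ht : t ∈ Tg i.range g) (he : IsCl e) {W : Subgroup V₀}
    {b : G → F} (hb : Lb e g i W b) : Lb e g i (W.map σ.toMonoidHom) (cj t b) := by
  have hX : ∀ x, x ∈ Subgroup.centralizer
      (((W.map σ.toMonoidHom).map i : Subgroup G) : Set G) ↔
      t⁻¹ * x * t ∈ Subgroup.centralizer ((W.map i : Subgroup G) : Set G) := by
    intro x
    rw [map_act h, H62.mem_cent_conjS]
  refine ⟨H62.bx_cj hX hb.blk, ?_, ?_⟩
  · have h1 := hb.und
    have heX : IsCl (fun s : Subgroup.centralizer ((W.map i : Subgroup G) : Set G) => e s) :=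
      fun x y => he x y
    have heX' : IsCl (fun s : Subgroup.centralizer
        (((W.map σ.toMonoidHom).map i : Subgroup G) : Set G) => e s) := fun x y => he x y
    rw [mulF_comm_cl heX, ← mulF_res _ e hb.blk.supp] at h1
    rw [mulF_comm_cl heX', ← mulF_res _ e (H62.bx_cj hX hb.blk).supp]
    have h2 : mulF (cj t b) e = cj t (mulF b e) := by
      rw [cj_mulF, cj_isCl t he]
    rw [h2]
    funext s
    exact congrFun h1 ⟨t⁻¹ * s * t, (hX _).1 s.2⟩
  · have hg : cj t g = g := (cj_eq_iff t g).2 ht.2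
    rw [br_cj' ht.1]
    conv_lhs => rw [← hg]
    rw [← cj_mulF, hb.gam, hg]

end tools

theorem cjt (hLbu : LbuStmt) : CjtStmt := by
  intro ℓ _ M _ hM hℓ2 V₀ G _ _ _ _ E₀ hFr B hB σ hσ t ht hact W
  have hF : GoodF ℓ (FF M) := H50.fld ℓ Fact.out M hM
  have hld := hB.ld
  have hcj : ∀ W : Subgroup V₀, cj t (B.b W) = B.b (W.map σ.toMonoidHom) := by
    intro W
    exact (hLbu ℓ (FF M) hF V₀ G B.e B.g B.i hB.inj hld).2.1 _ _ _
      (lb_act hact ht hld.blk.1.1 (hB.lb W)) (hB.lb _)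
  have hmem : ∀ (W : Subgroup V₀) (x : G), t * x * t⁻¹ ∈ B.C (W.map σ.toMonoidHom) ↔
      x ∈ B.C W := by
    intro W x
    rw [mem_C_act B hact]
    have : t⁻¹ * (t * x * t⁻¹) * t = x := by group
    rw [this]
  have hcard : ∀ W : Subgroup V₀, Nat.card (B.C (W.map σ.toMonoidHom)) = Nat.card (B.C W) :=
    fun W => (Nat.card_congr (ph B hact W).toEquiv).symm
  have hfun : ∀ W : Subgroup V₀, (fun y : B.C (W.map σ.toMonoidHom) =>
      (fun s : B.C W => B.b W s) ((ph B hact W).symm y)) =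
      fun y : B.C (W.map σ.toMonoidHom) => B.b (W.map σ.toMonoidHom) y := by
    intro W
    funext y
    rw [← hcj W]
    change B.b W (((ph B hact W).symm y : B.C W) : G) = B.b W (t⁻¹ * y * t)
    rw [ph_symm_coe]
  have hblk : ∀ W : Subgroup V₀, IsBlk (fun s : B.C W => B.b W s) := fun W => (hB.lb W).blk.blk
  have hbh : ∀ (W : Subgroup V₀) (x : G), bh B (W.map σ.toMonoidHom) (t * x * t⁻¹) =
      bh B W x := by
    intro W x
    unfold bh
    by_cases hx : x ∈ B.C W
    · rw [H46.ext0_of_mem _ ((hmem W x).2 hx), H46.ext0_of_mem _ hx]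
      have h1 := H62.eh_equiv (M := M) (ph B hact W) (hblk W).1.1 ⟨x, hx⟩
      rw [hfun W] at h1
      exact h1
    · rw [H46.ext0_of_not_mem _ (fun h' => hx ((hmem W x).1 h')), H46.ext0_of_not_mem _ hx]
  refine ⟨hcj W, hmem W, hcard W, hbh W, ?_, ?_⟩
  · intro c x
    have hsup : W.map σ.toMonoidHom ⊔ Subgroup.zpowers (σ c) =
        (W ⊔ Subgroup.zpowers c).map σ.toMonoidHom := by
      rw [Subgroup.map_sup, MonoidHom.map_zpowers]
      rfl
    unfold fc
    rw [hsup, hcard]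
    congr 1
    rw [← finsum_comp_equiv (ph B hact W).toEquiv]
    apply finsum_congr
    intro z
    change bh B ((W ⊔ Subgroup.zpowers c).map σ.toMonoidHom)
      ((B.i (σ c))⁻¹ * ((t * (z : G) * t⁻¹)⁻¹ * (t * x * t⁻¹) * (t * (z : G) * t⁻¹))) = _
    rw [← hbh (W ⊔ Subgroup.zpowers c) ((B.i c)⁻¹ * ((z : G)⁻¹ * x * z)), ← hact c]
    congr 1
    group
  · intro hW
    have hW' : W.map σ.toMonoidHom ≠ ⊥ := by
      intro h0
      apply hW
      exact (Subgroup.map_eq_bot_iff_of_injective W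
        (f := σ.toMonoidHom) σ.injective).1 h0
    have hD : B.D (W.map σ.toMonoidHom) = B.D W := by
      have h1 := H85.dg_equiv (ph B hact W) (hblk W).1.1 (hB.dg W hW)
      rw [hfun W] at h1
      exact H41.dg_uniq M hM (hblk _) (hB.dg _ hW') h1
    have hUU : B.S (W.map σ.toMonoidHom) = B.S W → B.U (W.map σ.toMonoidHom) = B.U W := by
      intro hS
      unfold Bk.U
      rw [hS, hcard, hD]
    have hS : B.S (W.map σ.toMonoidHom) = B.S W := by
      by_contra hne
      have hneg : B.S (W.map σ.toMonoidHom) = - B.S W := by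
        rcases hB.sg W hW with h1 | h1 <;> rcases hB.sg _ hW' with h2 | h2 <;>
          rw [h1, h2] at hne ⊢ <;> first | rfl | exact absurd rfl hne | norm_num
      have hUn : B.U (W.map σ.toMonoidHom) = - B.U W := by
        unfold Bk.U
        rw [hneg, hcard, hD]
        push_cast
        ring
      obtain ⟨r, hr, hr'⟩ := hB.un W hW
      obtain ⟨r', hr1, hr1'⟩ := hB.un _ hW'
      rw [hUn, hr'] at hr1'
      have h2 : (2 : ℚ) = ℓ * (-(r + r')) := by linarith
      have h3 : -(r + r') ∈ SOR.Rl ℓ := neg_mem (add_mem hr hr1)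
      obtain ⟨s, hs⟩ : ∃ s, s = -(r + r') := ⟨_, rfl⟩
      rw [← hs] at h2 h3
      have h4 : ¬ ℓ ∣ s.den := h3
      have hℓ : ℓ.Prime := Fact.out
      have h5 : (2 : ℚ) * s.den = ℓ * s.num := by
        rw [h2]
        have := Rat.mul_den_eq_num s
        rw [mul_assoc, this]
      have h6 : (2 : ℤ) * s.den = ℓ * s.num := by exact_mod_cast h5
      have h7 : (ℓ : ℤ) ∣ 2 * s.den := ⟨s.num, h6⟩
      have h8 : ℓ ∣ 2 * s.den := by exact_mod_cast h7
      rcases (hℓ.dvd_mul).1 h8 with h9 | h9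
      · exact hℓ2 ((Nat.prime_dvd_prime_iff_eq hℓ Nat.prime_two).1 h9)
      · exact h4 h9
    exact ⟨hD, hS, hUU hS⟩

end Pool.Agent.PP.SO.H69
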