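import Pool.Agent.ASO.StmtsL

/-!
# Squad ASO, row LAV: averages of rank one operators
-/

open scoped BigOperators

noncomputable section

namespace Pool.Agent.PP.SO.H69

/-- LAV -/
theorem lav : LAvStmt := by
  intro ℓ _ V Γ _ _ _ _ _ ρ hℓ hrk hA lam c d
  obtain ⟨a, ha⟩ := hA (lam.smulRight d)
  have hfin : Module.Finite (ZMod ℓ) V := Module.finite_of_finrank_pos (by omega)
  have h1 : ∑ e : Γ, lam (ρ e⁻¹ c) • ρ e d = a • c := by
    have h2 := LinearMap.congr_fun ha c
    rw [LinearMap.sum_apply] at h2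
    have h3 : (a • (1 : Module.End (ZMod ℓ) V)) c = a • c := rfl
    rw [h3] at h2
    rw [← h2]
    apply Finset.sum_congr rfl
    intro e _
    change _ = ρ e ((lam.smulRight d) (ρ e⁻¹ c))
    rw [LinearMap.smulRight_apply, map_smul]
  have h4 : (2 : ZMod ℓ) * a = (Fintype.card Γ : ZMod ℓ) * lam d := by
    have h5 := congrArg (LinearMap.trace (ZMod ℓ) V) ha
    rw [map_sum, map_smul, LinearMap.trace_one, hrk] at h5
    have h6 : ∀ e : Γ, LinearMap.trace (ZMod ℓ) V (ρ e * lam.smulRight d * ρ e⁻¹) = lam d := by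
      intro e
      rw [LinearMap.trace_mul_cycle, ← map_mul, inv_mul_cancel, map_one, one_mul]
      exact LinearMap.trace_smulRight lam d
    rw [Finset.sum_congr rfl (fun e _ => h6 e), Finset.sum_const, Finset.card_univ,
      nsmul_eq_mul] at h5
    rw [h5, smul_eq_mul]
    push_cast
    ring
  rw [h1, smul_smul, h4]

end Pool.Agent.PP.SO.H69
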